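import Pool.Agent.H66.ML.FinalA

/-!
# No bounded number of levels suffices in the mixed Littlewood conjecture

For every number of levels `N` and every `c < 1 / 3` there are integers `d_k ≥ 2` and a real number
`α` with `(q / t_n) ‖q α‖ ≥ c` for all `n ≤ N` and all positive multiples `q` of `t_n = d_1 ⋯ d_n`.
-/

namespace Pool.Agent.Results.MP_f2d454_nt.FiniteLevels

theorem result (N : ℕ) (c : ℝ) (hc : c < 1 / 3) :
    ∃ (d : ℕ → ℕ) (α : ℝ), (∀ k, 1 ≤ k → 2 ≤ d k) ∧ ∀ n ≤ N, ∀ q : ℕ, 1 ≤ q →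
      (∏ k ∈ Finset.Icc 1 n, d k) ∣ q →
        c ≤ (q : ℝ) / ((∏ k ∈ Finset.Icc 1 n, d k : ℕ) : ℝ) *
          |(q : ℝ) * α - ((round ((q : ℝ) * α) : ℤ) : ℝ)| :=
  Pool.Agent.H66.ML.main_levels N c hc

end Pool.Agent.Results.MP_f2d454_nt.FiniteLevels
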