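import Mathlib
import Pool.Agent.H52.MLG.AsP
import Pool.Agent.H52.MLG.ResidP

/-!
# The mixed Littlewood conjecture for generic sequences

`MixedLittlewood d` says that the conjecture holds for the sequence `D = (d_k)_{k ≥ 1}` and EVERY
real number `α` (`t_n = d_1 ⋯ d_n`, and `n` is the largest index with `t_n ∣ q`).
It is proved for every `D` in which all finite words of primes occur as blocks; so it holds for a
residual set of sequences and for almost every random sequence with independent entries which take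
every prime with probabilities bounded below.
-/

set_option autoImplicit false

open MeasureTheory

namespace Pool.Agent.Results.MP_f2d454_nt.GenericSequences

/-- The mixed Littlewood conjecture for the sequence `d_1, d_2, ...` and all real numbers `α`:
for every `ε > 0` there are `q ≥ 1` and the index `n` with `t_n ∣ q`, not `t_(n+1) ∣ q`, where
`t_n = d_1 ⋯ d_n`, and `(q / t_n) ‖q α‖ < ε`. -/
def MixedLittlewood (d : ℕ → ℕ) : Prop :=
  ∀ α : ℝ, ∀ ε : ℝ, 0 < ε →
    ∃ q : ℕ, 1 ≤ q ∧ ∃ n : ℕ,
      (∏ k ∈ Finset.Icc 1 n, d k) ∣ q ∧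
      ¬ ((∏ k ∈ Finset.Icc 1 (n + 1), d k) ∣ q) ∧
      (q : ℝ) / ((∏ k ∈ Finset.Icc 1 n, d k : ℕ) : ℝ) *
        |(q : ℝ) * α - ((round ((q : ℝ) * α) : ℤ) : ℝ)| < ε

/-- Every finite word `l = (p_1, ..., p_r)` of primes occurs as a block in `d_1, d_2, ...`:
`d_(N+1) = p_1, ..., d_(N+r) = p_r` for some `N`. -/
def EveryPrimeWord (d : ℕ → ℕ) : Prop :=
  ∀ l : List ℕ, (∀ p ∈ l, p.Prime) → ∃ N : ℕ, ∀ i : Fin l.length, d (N + 1 + i) = l.get i

/-- The conjecture holds, for all real numbers, for every sequence of integers at least 2 in which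
all finite words of primes occur; for a residual set of sequences of integers at least 2; and for
almost every sequence of independent random integers at least 2 which take each prime `p` with
probability at least some `δ_p > 0`. -/
theorem result :
    (∀ d : ℕ → ℕ, (∀ k, 1 ≤ k → 2 ≤ d k) → EveryPrimeWord d → MixedLittlewood d) ∧
    (∀ᶠ d : ℕ → {m : ℕ // 2 ≤ m} in residual (ℕ → {m : ℕ // 2 ≤ m}),
      MixedLittlewood (fun k => (d k : ℕ))) ∧
    (∀ μ : ℕ → Measure ℕ, (∀ k, IsProbabilityMeasure (μ k)) → (∀ k, μ k {m : ℕ | m < 2} = 0) →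
      (∀ p : ℕ, p.Prime → ∃ δ : ENNReal, 0 < δ ∧ ∀ k, δ ≤ μ k {p}) →
      ∀ᵐ d ∂(Measure.infinitePi μ), MixedLittlewood d) := by
  refine ⟨?_, MLG.residP, ?_⟩
  · intro d hd hw
    refine MLG.blkP d hd ?_
    intro l hl
    obtain ⟨N, hN⟩ := hw l hl
    refine ⟨N, fun i hi => ?_⟩
    have := hN ⟨i, hi⟩
    rw [List.getD_eq_getElem _ _ hi]
    simpa using this
  · intro μ hμ h2 hp
    have : ∀ k, IsProbabilityMeasure (μ k) := hμ
    choose! δ hδ using hp
    exact MLG.asP μ h2 δ (fun p hp => (hδ p hp).1) (fun k p hp => (hδ p hp).2 k)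

end Pool.Agent.Results.MP_f2d454_nt.GenericSequences
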