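import Pool.Agent.H66.NM.Main

/-!
# How close to a counterexample every multiplier sequence comes

For every sequence `D` (even for countably many of them at once) there is a set of real numbers `α`
of Hausdorff dimension one for which `q |q|_D ‖q α‖` is at least
`κ / (1 + min (ω_D q) (log₂ (q |q|_D))) ^ (1 + ε)` for all `q ≥ 1`.
-/

namespace Pool.Agent.Results.MP_f2d454_nt.NearMiss

open Finset

theorem result (ε η : ℝ) (hε : 0 < ε) (hη : η < 1) :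
    ∃ κ : ℝ, 0 < κ ∧ ∀ d : ℕ → ℕ → ℕ, (∀ j k, 1 ≤ k → 2 ≤ d j k) →
      ENNReal.ofReal η ≤ dimH {α : ℝ | ∀ j n q : ℕ, 1 ≤ q → (∏ k ∈ Finset.Icc 1 n, d j k) ∣ q →
        κ / (4 ^ j *
          (((1 + min n (Nat.log 2 (q / ∏ k ∈ Finset.Icc 1 n, d j k)) : ℕ) : ℝ)) ^ (1 + ε)) ≤
          (q : ℝ) / ((∏ k ∈ Finset.Icc 1 n, d j k : ℕ) : ℝ) *
            |(q : ℝ) * α - ((round ((q : ℝ) * α) : ℤ) : ℝ)|} := by
  obtain ⟨κ, hκ, h⟩ := Pool.Agent.H66.NM.main ε η hε hη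
  refine ⟨κ, hκ, fun d hd => ?_⟩
  have ht0 : ∀ j n, 1 ≤ ∏ k ∈ Finset.Icc 1 n, d j k := by
    intro j n
    refine Finset.one_le_prod' fun k hk => ?_
    have := hd j k (Finset.mem_Icc.1 hk).1
    omega
  have ht : ∀ j n, 2 * ∏ k ∈ Finset.Icc 1 n, d j k ≤ ∏ k ∈ Finset.Icc 1 (n + 1), d j k := by
    intro j n
    rw [Finset.prod_Icc_succ_top (by omega), mul_comm]
    exact Nat.mul_le_mul_left _ (hd j (n + 1) (by omega))
  refine (h (fun j n => ∏ k ∈ Finset.Icc 1 n, d j k) ht0 ht).trans (dimH_mono ?_)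
  intro α hα j n q hq hdvd
  obtain ⟨m, rfl⟩ := hdvd
  have hm : 1 ≤ m := by
    rcases Nat.eq_zero_or_pos m with h0 | h0
    · rw [h0, mul_zero] at hq
      omega
    · exact h0
  have h1 := hα j n m hm (round ((((∏ k ∈ Finset.Icc 1 n, d j k) * m : ℕ) : ℝ) * α))
  have hT := ht0 j n
  have hT' : (0 : ℝ) < ((∏ k ∈ Finset.Icc 1 n, d j k : ℕ) : ℝ) := by exact_mod_cast hT
  rw [Nat.mul_div_cancel_left m hT]
  have h2 : (((∏ k ∈ Finset.Icc 1 n, d j k) * m : ℕ) : ℝ) /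
      ((∏ k ∈ Finset.Icc 1 n, d j k : ℕ) : ℝ) = m := by
    rw [Nat.cast_mul, mul_div_cancel_left₀ _ hT'.ne']
  rw [h2]
  exact h1

end Pool.Agent.Results.MP_f2d454_nt.NearMiss
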