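import Pool.Agent.H66.ML.FinalB

/-!
# The mixed Littlewood identity for every real number and almost every sequence of multipliers

The multipliers `d_k` are independent, and either they take two multiplicatively independent values
with probabilities bounded below, or `d_k` is uniformly distributed on `{2, …, X_k}`.
-/

namespace Pool.Agent.Results.MP_f2d454_nt.RandomMultipliers

open MeasureTheory ProbabilityTheory Pool.Agent.H66.ML

theorem result :
    (∀ (Ω : Type) [MeasurableSpace Ω] (P : Measure Ω) [IsProbabilityMeasure P]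
      (d : ℕ → Ω → ℕ) (a b : ℕ) (p : ℝ), (∀ k, Measurable (d k)) → iIndepFun d P →
      (∀ k, ∀ᵐ ω ∂P, 2 ≤ d k ω) → MInd a b → 0 < p → (∀ k, p ≤ P.real {ω | d k ω = a}) →
      (∀ k, p ≤ P.real {ω | d k ω = b}) →
      ∀ α : ℝ, ∀ᵐ ω ∂P, MLZero (fun k => d k ω) α) ∧
    (∀ (Ω : Type) [MeasurableSpace Ω] (P : Measure Ω) [IsProbabilityMeasure P]
      (d : ℕ → Ω → ℕ) (X : ℕ → ℕ), (∀ k, Measurable (d k)) → iIndepFun d P →
      (∀ k, 3 ≤ X k) →
      (∀ k, ∀ m ∈ Finset.Icc 2 (X k), P.real {ω | d k ω = m} = 1 / ((X k : ℝ) - 1)) →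
      ∀ α : ℝ, ∀ᵐ ω ∂P, MLZero (fun k => d k ω) α) :=
  main

end Pool.Agent.Results.MP_f2d454_nt.RandomMultipliers
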